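import Pool.Agent.N351.Defs
import Pool.Agent.N351.OrthoD

set_option autoImplicit false

/-!
# The ortho-derivative of a quadratic APN function

For every `n ≥ 3` and every quadratic APN function `F` on `F_2^n`, every nonzero component of the
ortho-derivative of `F` has algebraic degree exactly `n - 2`; its nonlinearity is zero if and only
if `n = 3`, and the case `n = 3` occurs.
-/

namespace Pool.Agent.Results.MP_4cfb12_co.OrthoDerivativeDegree

open Pool.Agent.N351

theorem result :
    (∀ n : ℕ, 3 ≤ n → ∀ F π : V n → V n, IsAPN F → IsQuadratic F → IsOrthoDerivative F π →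
      (∀ b : V n, b ≠ 0 → HasDegree (fun x => dot b (π x)) (n - 2)) ∧ (NL π = 0 ↔ n = 3)) ∧
    ∃ F π : V 3 → V 3, IsAPN F ∧ IsQuadratic F ∧ IsOrthoDerivative F π ∧ NL π = 0 :=
  Pool.Agent.N351.main

end Pool.Agent.Results.MP_4cfb12_co.OrthoDerivativeDegree
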